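import Pool.Agent.helper53.EXT.SpecG

set_option autoImplicit false

open Finset

namespace Pool.Agent.EXT

open Pool.Agent.EXC

theorem G5Y_conj {F : Type} [Field F] (G : Matrix.SpecialLinearGroup (Fin 4) F) (Y C : Matrix (Fin 4) (Fin 4) F)
    (h : (G : Matrix (Fin 4) (Fin 4) F) * Y = C * (G : Matrix (Fin 4) (Fin 4) F)) :
    (G : Matrix (Fin 4) (Fin 4) F) * Y * ((G⁻¹ : Matrix.SpecialLinearGroup (Fin 4) F) : Matrix (Fin 4) (Fin 4) F) = C := by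
  rw [h, Matrix.mul_assoc, ← Matrix.SpecialLinearGroup.coe_mul, mul_inv_cancel, Matrix.SpecialLinearGroup.coe_one, Matrix.mul_one]

theorem G5Y : G5Y_stmt := by
  intro F _ s1 s2 h1 h2
  have hd1 : (!![0, 0, s1, 0; 0, 1, 0, -s2 / s1; 1 / s2, 1, 0, 0; 0, 1, 0, -2 * s2 / s1] : Matrix (Fin 4) (Fin 4) F).det = 1 := by
    simp [Matrix.det_succ_row_zero, Fin.sum_univ_succ, Fin.succAbove]
    field_simp
    ring
  have hd2 : (!![-1 / s2, 0, 0, 0; 0, 1, 0, 0; 0, 0, -s1, 0; 0, 0, 0, s2 / s1] : Matrix (Fin 4) (Fin 4) F).det = 1 := by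
    simp [Matrix.det_succ_row_zero, Fin.sum_univ_succ, Fin.succAbove]
    field_simp
  have hY : Y4 1 2 s1 s2 = (!![1, s2, 0, 0; 0, 1, s1, 0; 0, 0, 1, 0; 0, 0, 0, 1] : Matrix (Fin 4) (Fin 4) F) := by
    unfold Y4
    ext i j
    fin_cases i <;> fin_cases j <;> simp [Matrix.mul_apply, Fin.sum_univ_four, Matrix.single, Matrix.one_apply]
  refine ⟨⟨_, hd1⟩, ⟨_, hd2⟩, -1, Or.inr rfl, ?_⟩
  intro Z hZ
  have e1 := G5Y_conj (⟨_, hd1⟩ : Matrix.SpecialLinearGroup (Fin 4) F) (Y4 1 2 s1 s2)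
    !![1, 0, 0, 0; 1, 1, 0, 0; 1, 2, 1, -1; 1, 0, 0, 1] (by
      rw [hY]
      ext i j
      fin_cases i <;> fin_cases j <;> simp [Matrix.mul_apply, Fin.sum_univ_four] <;> field_simp <;> ring)
  have e2 := G5Y_conj (⟨_, hd2⟩ : Matrix.SpecialLinearGroup (Fin 4) F) (Y4 1 2 s1 s2)
    !![1, -1, 0, 0; 0, 1, -1, 0; 0, 0, 1, 0; 0, 0, 0, 1] (by
      rw [hY]
      ext i j
      fin_cases i <;> fin_cases j <;> simp [Matrix.mul_apply, Fin.sum_univ_four] <;> field_simp)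
  rw [e1, e2] at hZ
  have hZ1 : Z = !![1, -1, 0, 0; 1, 0, -1, 0; 1, 1, -1, -1; 1, -1, 0, 1] := by
    rw [hZ]
    ext i j
    fin_cases i <;> fin_cases j <;> simp [Matrix.mul_apply, Fin.sum_univ_four] <;> ring
  have hZ2 : Z ^ 2 = !![0, -1, 1, 0; 0, -2, 1, 1; 0, -1, 0, 0; 1, -2, 1, 1] := by
    rw [sq, hZ1]
    ext i j
    fin_cases i <;> fin_cases j <;> simp [Matrix.mul_apply, Fin.sum_univ_four] <;> ring
  have hZ3 : Z ^ 3 = Z ^ 2 * Z := by rw [pow_succ]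
  have hZ4 : Z ^ 4 = Z ^ 2 * Z ^ 2 := by rw [← pow_add]
  rw [hZ4, hZ3, hZ2, hZ1]
  ext i j
  fin_cases i <;> fin_cases j <;> simp [Matrix.mul_apply, Fin.sum_univ_four] <;> ring

end Pool.Agent.EXT
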